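import Pool.Agent.Work.MP_b5407d_lbm.Interface

/-!
# Block GR (helper76): Green's theorem
-/

set_option autoImplicit false

open MeasureTheory Set Filter Topology

namespace Pool.LBM

namespace GR

lemma closed_HP {ι : Type} (θ : ι → R2) (g : ι → ℝ) : IsClosed (HP θ g) := by
  have h1 : HP θ g = ⋂ j, {x : R2 | dt (θ j) x ≤ g j} := by
    ext x
    simp [HP]
  rw [h1]
  apply isClosed_iInter
  intro j
  apply isClosed_le _ continuous_const
  unfold dt
  fun_prop

lemma compact_HP {ι : Type} (θ : ι → R2) (g : ι → ℝ) (hN : Nor θ) : IsCompact (HP θ g) :=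
  Metric.isCompact_of_isClosed_isBounded (closed_HP θ g) (hN.bdd g)

lemma II_shift {ι : Type} (θ : ι → R2) (f : R2 → ℝ) (h : ι → ℝ) (t : R2) (s : ℝ) :
    II θ f (fun j => h j + s * dt (θ j) t) = ∫ x in HP θ h, f (x + s • t) := by
  unfold II
  have hmp : MeasurePreserving (fun x : R2 => x + s • t) volume volume :=
    measurePreserving_add_right volume (s • t)
  have h1 := hmp.setIntegral_preimage_emb (measurableEmbedding_addRight (s • t)) f
    (HP θ (fun j => h j + s * dt (θ j) t))
  rw [← h1]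
  have h2 : (fun x : R2 => x + s • t) ⁻¹' (HP θ (fun j => h j + s * dt (θ j) t)) = HP θ h := by
    ext x
    simp only [Set.mem_preimage, HP, Set.mem_setOf_eq]
    apply forall_congr'
    intro j
    have h3 : dt (θ j) (x + s • t) = dt (θ j) x + s * dt (θ j) t := by
      unfold dt
      simp only [Prod.fst_add, Prod.snd_add, Prod.smul_fst, Prod.smul_snd, smul_eq_mul]
      ring
    rw [h3]
    constructor
    · intro h; linarith
    · intro h; linarith
  rw [h2]

lemma deriv_shift {ι : Type} (θ : ι → R2) (h : ι → ℝ) (hN : Nor θ) (Φ : R2 → ℝ)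
    (hΦ : ContDiff ℝ 1 Φ) (t : R2) :
    HasDerivAt (fun s : ℝ => ∫ x in HP θ h, Φ (x + s • t)) (∫ x in HP θ h, fderiv ℝ Φ x t) 0 := by
  have hcpt := compact_HP θ h hN
  have hcd : Continuous (fun p : ℝ × R2 => fderiv ℝ Φ (p.2 + p.1 • t) t) := by
    have h1 : Continuous (fderiv ℝ Φ) := hΦ.continuous_fderiv (by norm_num)
    have h2 : Continuous (fun p : ℝ × R2 => p.2 + p.1 • t) := by fun_prop
    exact (h1.comp h2).clm_apply continuous_const
  obtain ⟨M, hM⟩ := (IsCompact.prod (isCompact_Icc (a := (-1 : ℝ)) (b := 1)) hcpt).exists_bound_of_continuousOn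
    hcd.continuousOn
  have key := hasDerivAt_integral_of_dominated_loc_of_deriv_le (μ := volume.restrict (HP θ h))
    (F := fun (s : ℝ) (x : R2) => Φ (x + s • t)) (x₀ := (0 : ℝ)) (s := Metric.ball (0 : ℝ) 1)
    (bound := fun _ => M) (F' := fun (s : ℝ) (x : R2) => fderiv ℝ Φ (x + s • t) t)
    (Metric.ball_mem_nhds 0 one_pos) ?_ ?_ ?_ ?_ ?_ ?_
  · have h2 := key.2
    simp only [zero_smul, add_zero] at h2
    exact h2
  · filter_upwards with s
    exact (hΦ.continuous.comp (by fun_prop)).aestronglyMeasurable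
  · have h3 : Continuous (fun x : R2 => Φ (x + (0 : ℝ) • t)) := hΦ.continuous.comp (by fun_prop)
    exact h3.continuousOn.integrableOn_compact hcpt
  · have h1 : Continuous (fun x : R2 => fderiv ℝ Φ (x + (0 : ℝ) • t) t) :=
      hcd.comp (by fun_prop : Continuous (fun x : R2 => ((0 : ℝ), x)))
    exact h1.aestronglyMeasurable
  · rw [ae_restrict_iff' (closed_HP θ h).measurableSet]
    filter_upwards with x hx s hs
    apply hM (s, x)
    refine ⟨?_, hx⟩
    rw [Metric.mem_ball, dist_zero_right, Real.norm_eq_abs, abs_lt] at hs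
    exact ⟨hs.1.le, hs.2.le⟩
  · exact integrableOn_const hcpt.measure_lt_top.ne
  · filter_upwards with x s _
    have h1 : HasFDerivAt Φ (fderiv ℝ Φ (x + s • t)) (x + s • t) :=
      (hΦ.differentiable (by norm_num) _).hasFDerivAt
    have h2 : HasDerivAt (fun s : ℝ => x + s • t) t s := by
      have h3 := ((hasDerivAt_id s).smul_const t).const_add x
      simpa using h3
    exact h1.comp_hasDerivAt s h2

end GR

open GR

theorem blk_GR : Stmt_FV → Stmt_GF → Stmt_GN → Stmt_GR := by
  intro hFV hGF hGN n θ P ℓ hG Φ hΦ t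
  obtain ⟨hN, hFat, _⟩ := hGN n θ P ℓ hG
  have h1 := hFV (Fin n) (gth n θ) Φ (gh n θ P) (fun j => dt (gth n θ j) t) hN hΦ.continuous hFat
  have h2 := deriv_shift (gth n θ) (gh n θ P) hN Φ hΦ t
  have h3 : (fun s : ℝ => II (gth n θ) Φ (fun j => gh n θ P j + s * dt (gth n θ j) t)) =
      fun s : ℝ => ∫ x in HP (gth n θ) (gh n θ P), Φ (x + s • t) := by
    funext s
    exact II_shift (gth n θ) Φ (gh n θ P) t s
  rw [h3] at h1
  have h4 := h2.unique h1
  unfold GP
  rw [h4, Finset.sum_range]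
  apply Finset.sum_congr rfl
  intro k _
  rw [hGF n θ P ℓ Φ hG k]
  rfl

end Pool.LBM
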