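import Pool.Agent.Work.MP_b5407d_lbm.Interface

/-!
# Block SF (helper76): Fubini in a slab
-/

set_option autoImplicit false

open MeasureTheory Set Filter Topology

namespace Pool.LBM

namespace SF

/-- the coordinates `(c, s) ↦ c v + s rt v` -/
def T (v : R2) : R2 →ₗ[ℝ] R2 where
  toFun p := p.1 • v + p.2 • rt v
  map_add' p q := by
    simp only [Prod.fst_add, Prod.snd_add, add_smul]
    abel
  map_smul' c p := by
    simp only [Prod.smul_fst, Prod.smul_snd, smul_eq_mul, mul_smul, RingHom.id_apply, smul_add]

lemma T_apply (v p : R2) : T v p = p.1 • v + p.2 • rt v := rfl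

lemma det_T (v : R2) (hv : dt v v = 1) : LinearMap.det (T v) = 1 := by
  rw [← LinearMap.det_toMatrix (Module.Basis.finTwoProd ℝ), Matrix.det_fin_two]
  simp only [LinearMap.toMatrix_apply, Module.Basis.finTwoProd_zero, Module.Basis.finTwoProd_one,
    T_apply, rt]
  unfold dt at hv
  simp only [Module.Basis.coe_finTwoProd_repr, Prod.smul_mk, one_smul, zero_smul, add_zero, zero_add,
    smul_eq_mul, Prod.mk_add_mk, Matrix.cons_val_zero, Matrix.cons_val_one]
  simp
  linarith

lemma mp_T (v : R2) (hv : dt v v = 1) : MeasurePreserving (T v) volume volume := by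
  refine ⟨?_, ?_⟩
  · exact (LinearMap.continuous_of_finiteDimensional (T v)).measurable
  · have h1 : LinearMap.det (T v) ≠ 0 := by
      rw [det_T v hv]
      norm_num
    have h2 := Measure.map_linearMap_addHaar_eq_smul_addHaar (volume : Measure R2) h1
    rw [h2, det_T v hv]
    simp

lemma dt_T (v p : R2) (hv : dt v v = 1) : dt v (T v p) = p.1 := by
  unfold dt at hv
  simp only [T_apply, dt, rt, Prod.fst_add, Prod.snd_add, Prod.smul_fst, Prod.smul_snd,
    smul_eq_mul]
  linear_combination p.1 * hv

variable {ι : Type} [Fintype ι] [DecidableEq ι] (θ : ι → R2) (f : R2 → ℝ) (h : ι → ℝ) (i : ι)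

/-- the slice at height `c` of the polygon without the half plane `i` -/
noncomputable def sl (c : ℝ) : ℝ :=
  ∫ s in {s : ℝ | ∀ j, j ≠ i → dt (θ j) (T (θ i) (c, s)) ≤ h j}, f (T (θ i) (c, s))

lemma closed_HP (g : ι → ℝ) : IsClosed (HP θ g) := by
  have h1 : HP θ g = ⋂ j, {x : R2 | dt (θ j) x ≤ g j} := by
    ext x
    simp [HP]
  rw [h1]
  apply isClosed_iInter
  intro j
  apply isClosed_le _ continuous_const
  unfold dt
  fun_prop

lemma FI_eq (hv : dt (θ i) (θ i) = 1) (a : ℝ) :
    FI θ f (Function.update h i a) i = sl θ f h i a := by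
  unfold FI sl
  have h1 : {s : ℝ | (Function.update h i a) i • θ i + s • rt (θ i) ∈ HP θ (Function.update h i a)}
      = {s : ℝ | ∀ j, j ≠ i → dt (θ j) (T (θ i) (a, s)) ≤ h j} := by
    ext s
    simp only [Function.update_self, HP, Set.mem_setOf_eq]
    constructor
    · intro hs j hj
      have := hs j
      rw [Function.update_of_ne hj] at this
      exact this
    · intro hs j
      rcases eq_or_ne j i with hj | hj
      · subst hj
        rw [Function.update_self]
        have := dt_T (θ j) (a, s) hv
        rw [T_apply] at this
        rw [this]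
      · rw [Function.update_of_ne hj]
        exact hs j hj
  rw [h1]
  simp only [Function.update_self]
  rfl

lemma slice_eq (hv : dt (θ i) (θ i) = 1) (a c : ℝ) :
    ∫ s, (HP θ (Function.update h i a)).indicator f (T (θ i) (c, s)) =
      (Iic a).indicator (sl θ f h i) c := by
  by_cases hc : c ≤ a
  · rw [Set.indicator_of_mem (by exact hc)]
    unfold sl
    have hmeas : MeasurableSet {s : ℝ | ∀ j, j ≠ i → dt (θ j) (T (θ i) (c, s)) ≤ h j} := by
      have h1 : {s : ℝ | ∀ j, j ≠ i → dt (θ j) (T (θ i) (c, s)) ≤ h j} =
          ⋂ j, ⋂ (_ : j ≠ i), {s : ℝ | dt (θ j) (T (θ i) (c, s)) ≤ h j} := by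
        ext s
        simp
      rw [h1]
      apply IsClosed.measurableSet
      apply isClosed_iInter
      intro j
      apply isClosed_iInter
      intro _
      apply isClosed_le _ continuous_const
      simp only [T_apply]
      unfold dt
      fun_prop
    rw [← integral_indicator hmeas]
    apply integral_congr_ae
    filter_upwards with s
    by_cases hs : T (θ i) (c, s) ∈ HP θ (Function.update h i a)
    · rw [Set.indicator_of_mem hs, Set.indicator_of_mem]
      intro j hj
      have := hs j
      rwa [Function.update_of_ne hj] at this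
    · rw [Set.indicator_of_notMem hs, Set.indicator_of_notMem]
      intro hs'
      apply hs
      intro j
      rcases eq_or_ne j i with hj | hj
      · subst hj
        rw [Function.update_self, dt_T _ _ hv]
        exact hc
      · rw [Function.update_of_ne hj]
        exact hs' j hj
  · rw [Set.indicator_of_notMem (by exact hc)]
    rw [← integral_zero ℝ ℝ]
    apply integral_congr_ae
    filter_upwards with s
    apply Set.indicator_of_notMem
    intro hs
    have := hs i
    rw [Function.update_self, dt_T _ _ hv] at this
    exact hc this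

lemma integrable_T (hN : Nor θ) (hf : Continuous f) (g : ι → ℝ) :
    Integrable (fun p : R2 => (HP θ g).indicator f (T (θ i) p)) (volume.prod volume) := by
  have hcl := closed_HP θ g
  have hcpt : IsCompact (HP θ g) := Metric.isCompact_of_isClosed_isBounded hcl (hN.bdd g)
  have h1 : Integrable ((HP θ g).indicator f) (volume : Measure R2) := by
    rw [integrable_indicator_iff hcl.measurableSet]
    exact hf.continuousOn.integrableOn_compact hcpt
  have h2 := ((mp_T (θ i) (hN.unit i)).integrable_comp h1.aestronglyMeasurable).2 h1
  exact h2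

lemma II_eq (hN : Nor θ) (hf : Continuous f) (a : ℝ) :
    II θ f (Function.update h i a) = ∫ c in Iic a, sl θ f h i c := by
  have hcl := closed_HP θ (Function.update h i a)
  have hint := integrable_T θ f i hN hf (Function.update h i a)
  have hmp := mp_T (θ i) (hN.unit i)
  unfold II
  rw [← integral_indicator hcl.measurableSet]
  have h1 : ∫ x, (HP θ (Function.update h i a)).indicator f x =
      ∫ p, (HP θ (Function.update h i a)).indicator f (T (θ i) p) := by
    have h2 := integral_map (μ := (volume : Measure R2)) (φ := T (θ i)) hmp.measurable.aemeasurable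
      (f := (HP θ (Function.update h i a)).indicator f) (by
        rw [hmp.map_eq]
        exact (hf.measurable.indicator hcl.measurableSet).aestronglyMeasurable)
    rw [hmp.map_eq] at h2
    exact h2
  rw [h1]
  have h3 : ∫ p : R2, (HP θ (Function.update h i a)).indicator f (T (θ i) p) =
      ∫ c : ℝ, ∫ s : ℝ, (HP θ (Function.update h i a)).indicator f (T (θ i) (c, s)) :=
    integral_prod _ hint
  rw [h3]
  simp only [slice_eq θ f h i (hN.unit i)]
  rw [integral_indicator measurableSet_Iic]

lemma sl_integrable (hN : Nor θ) (hf : Continuous f) (a : ℝ) :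
    IntegrableOn (sl θ f h i) (Iic a) := by
  have hint := integrable_T θ f i hN hf (Function.update h i a)
  have h1 := hint.integral_prod_left
  rw [← integrable_indicator_iff measurableSet_Iic]
  refine h1.congr ?_
  filter_upwards with c
  exact slice_eq θ f h i (hN.unit i) a c

end SF

open SF

theorem blk_SF : Stmt_SF := by
  intro ι _ _ θ f h i s hN hf
  have h0 : II θ f h = ∫ c in Iic (h i), sl θ f h i c := by
    have := II_eq θ f h i hN hf (h i)
    rwa [Function.update_eq_self] at this
  rw [II_eq θ f h i hN hf, h0, intervalIntegral.integral_Iic_sub_Iic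
    (sl_integrable θ f h i hN hf _) (sl_integrable θ f h i hN hf _)]
  have h1 : ∀ σ : ℝ, FI θ f (Function.update h i (h i + σ)) i = sl θ f h i (h i + σ) :=
    fun σ => FI_eq θ f h i (hN.unit i) _
  simp only [h1]
  rw [intervalIntegral.integral_comp_add_left (fun x => sl θ f h i x) (h i), add_zero]

end Pool.LBM
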